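import Mathlib

/-!
# Owings' problem: two-colourings of the natural numbers

A colouring of the integers is `Bad` if there is no infinite set `X` of
nonnegative integers such that `X + X` is monochromatic.
-/

set_option autoImplicit false

namespace Pool.Agent.Q213.ON

open Filter Set Topology

/-- A colouring with no infinite set `X` of nonnegative integers such that
`X + X` is monochromatic. -/
def Bad (c : ℤ → Bool) : Prop :=
  ∀ X : Set ℤ, X.Infinite → (∀ x ∈ X, 0 ≤ x) →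
    ¬ ∃ i : Bool, ∀ x ∈ X, ∀ y ∈ X, c (x + y) = i

theorem build {c : ℤ → Bool} (hc : Bad c) (β : Bool) (P : ℤ → Prop)
    (h0 : ∀ u, P u → 0 ≤ u)
    (hP : ∀ u, P u → c (u + u) = β)
    (h : ∀ s : Finset ℤ, (∀ x ∈ s, P x) →
      ∃ y, P y ∧ ∀ x ∈ s, x ≠ y ∧ c (x + y) = β) : False := by
  obtain ⟨f, hf, hr⟩ :=
    exists_seq_of_forall_finset_exists P (fun x y => x ≠ y ∧ c (x + y) = β) h
  have hinj : Function.Injective f := by
    intro m n hmn
    by_contra hne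
    rcases lt_or_gt_of_ne hne with hlt | hlt
    · exact (hr m n hlt).1 hmn
    · exact (hr n m hlt).1 hmn.symm
  refine hc (Set.range f) (Set.infinite_range_of_injective hinj) ?_ ⟨β, ?_⟩
  · rintro _ ⟨m, rfl⟩
    exact h0 _ (hf m)
  rintro _ ⟨m, rfl⟩ _ ⟨n, rfl⟩
  rcases lt_trichotomy m n with hlt | heq | hlt
  · exact (hr m n hlt).2
  · subst heq
    exact hP _ (hf m)
  · rw [add_comm]
    exact (hr n m hlt).2

/-- `f` and `g` are the limits of the translates of `c` at `x` and at `2 x`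
along the ultrafilter `U` at infinity. -/
structure Lim (c : ℤ → Bool) (U : Ultrafilter ℤ) (f g : ℤ → Bool) : Prop where
  np : (U : Filter ℤ) ≤ atTop
  h1 : ∀ t, ∀ᶠ x in (U : Filter ℤ), c (x + t) = f t
  h2 : ∀ t, ∀ᶠ x in (U : Filter ℤ), c (2 * x + t) = g t

theorem exlim {α : Type*} (U : Ultrafilter α) (h : α → Bool) :
    ∃ b, ∀ᶠ x in (U : Filter α), h x = b := by
  have hor : ∀ᶠ x in (U : Filter α), h x = true ∨ h x = false :=
    Eventually.of_forall (fun x => by cases h x <;> simp)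
  rcases Ultrafilter.eventually_or.1 hor with h1 | h1
  · exact ⟨true, h1⟩
  · exact ⟨false, h1⟩

theorem exLim (c : ℤ → Bool) (U : Ultrafilter ℤ) (hU : (U : Filter ℤ) ≤ atTop) :
    ∃ f g : ℤ → Bool, Lim c U f g := by
  choose f hf using fun t => exlim U (fun x => c (x + t))
  choose g hg using fun t => exlim U (fun x => c (2 * x + t))
  exact ⟨f, g, hU, hf, hg⟩

theorem ge_ev {U : Ultrafilter ℤ} (hU : (U : Filter ℤ) ≤ atTop) (a : ℤ) :
    ∀ᶠ x in (U : Filter ℤ), a ≤ x := hU (eventually_ge_atTop a)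

theorem ne_ev {U : Ultrafilter ℤ} (hU : (U : Filter ℤ) ≤ atTop) (a : ℤ) :
    ∀ᶠ x in (U : Filter ℤ), x ≠ a := by
  filter_upwards [ge_ev hU (a + 1)] with x hx
  omega

/-- The limit of `f (2 t + x)` is different from `g (2 t)`. -/
theorem L1 {c : ℤ → Bool} (hc : Bad c) {U : Ultrafilter ℤ} {f g : ℤ → Bool}
    (hL : Lim c U f g) (t : ℤ) : ∀ᶠ x in (U : Filter ℤ), f (2 * t + x) ≠ g (2 * t) := by
  by_contra hcon
  have hev : ∀ᶠ x in (U : Filter ℤ), f (2 * t + x) = g (2 * t) := by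
    by_contra h2
    exact hcon (Ultrafilter.eventually_not.2 h2)
  refine build hc (g (2 * t))
    (fun u => f (t + u) = g (2 * t) ∧ c (u + u) = g (2 * t) ∧ 0 ≤ u)
    (fun u hu => hu.2.2) (fun u hu => hu.2.1) ?_
  intro s hs
  have hfin : ∀ᶠ x in (U : Filter ℤ), ∀ u ∈ s,
      x ≠ u - t ∧ c (x + (u + t)) = f (u + t) := by
    rw [Filter.eventually_all_finset]
    intro u _
    exact (ne_ev hL.np _).and (hL.h1 _)
  obtain ⟨x, ⟨⟨hx1, hx2⟩, hx3⟩, hx4⟩ :=
    (((hev.and (hL.h2 (2 * t))).and hfin).and (ge_ev hL.np (-t))).exists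
  refine ⟨t + x, ⟨?_, ?_, by omega⟩, ?_⟩
  · rw [← hx1]; congr 1; ring
  · rw [← hx2]; congr 1; ring
  · intro u hu
    obtain ⟨h3, h4⟩ := hx3 u hu
    refine ⟨?_, ?_⟩
    · intro he
      apply h3
      rw [he]; ring
    · have e1 : u + (t + x) = x + (u + t) := by ring
      rw [e1, h4, ← (hs u hu).1]
      congr 1; ring

/-- If `f (2 t + s) ≠ f s` on a large enough finite set of even numbers then
`g (4 t) ≠ g (2 t)`. -/
theorem L2 {c : ℤ → Bool} (hc : Bad c) {U : Ultrafilter ℤ} {f g : ℤ → Bool}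
    (hL : Lim c U f g) (hE : ∀ᶠ x in (U : Filter ℤ), Even x) :
    ∃ F : Finset ℤ, ∀ t, (∀ s ∈ F, f (2 * t + 2 * s) ≠ f (2 * s)) →
      g (2 * (2 * t)) ≠ g (2 * t) := by
  classical
  by_contra hcon
  push Not at hcon
  have hβ : ∃ β : Bool, ∀ F : Finset ℤ, ∃ t, (∀ s ∈ F, f (2 * t + 2 * s) ≠ f (2 * s)) ∧
      g (2 * (2 * t)) = β ∧ g (2 * t) = β := by
    by_contra hno
    push Not at hno
    obtain ⟨F1, h1⟩ := hno true
    obtain ⟨F2, h2⟩ := hno false
    obtain ⟨t, ht, hg⟩ := hcon (F1 ∪ F2)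
    have a1 := h1 t (fun s hs => ht s (Finset.mem_union_left _ hs))
    have a2 := h2 t (fun s hs => ht s (Finset.mem_union_right _ hs))
    rw [hg] at a1 a2
    cases hh : g (2 * t) with
    | true => exact a1 hh hh
    | false => exact a2 hh hh
  obtain ⟨β, hβ⟩ := hβ
  refine build hc β (fun u => f u ≠ β ∧ c (u + u) = β ∧ Even u ∧ 0 ≤ u)
    (fun u hu => hu.2.2.2) (fun u hu => hu.2.1) ?_
  intro s hs
  obtain ⟨t, ht, ht2, ht1⟩ := hβ (s.image (fun u => u / 2))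
  have hfin : ∀ᶠ x in (U : Filter ℤ), ∀ u ∈ s,
      x ≠ u - 2 * t ∧ c (x + (2 * t + u)) = f (2 * t + u) := by
    rw [Filter.eventually_all_finset]
    intro u _
    exact (ne_ev hL.np _).and (hL.h1 _)
  obtain ⟨x, ⟨⟨⟨hx1, hx2⟩, hx3⟩, hx4⟩, hx5⟩ :=
    (((((L1 hc hL t).and (hL.h2 (2 * (2 * t)))).and hfin).and
      (ge_ev hL.np (-(2 * t)))).and hE).exists
  refine ⟨2 * t + x, ⟨?_, ?_, ?_, by omega⟩, ?_⟩
  · rw [← ht1]; exact hx1
  · rw [← ht2, ← hx2]; congr 1; ring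
  · exact (even_two_mul t).add hx5
  · intro u hu
    obtain ⟨h3, h4⟩ := hx3 u hu
    refine ⟨?_, ?_⟩
    · intro he
      apply h3
      rw [he]; ring
    · have e1 : u + (2 * t + x) = x + (2 * t + u) := by ring
      rw [e1, h4]
      have h5 := ht (u / 2) (Finset.mem_image_of_mem _ hu)
      have e2 : 2 * (u / 2) = u := Int.two_mul_ediv_two_of_even (hs u hu).2.2.1
      rw [e2] at h5
      have h6 := (hs u hu).1
      revert h5 h6
      cases f (2 * t + u) <;> cases f u <;> cases β <;> simp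

/-- The pattern sets. -/
def VV (c : ℤ → Bool) (F : Finset ℤ) (f g : ℤ → Bool) : Set ℤ :=
  {v | Even v ∧ 0 ≤ v ∧
    ∀ t ∈ F, c (v + 2 * t) = xor (c v) (f t) ∧ c (2 * v + 2 * t) = xor (c v) (g t)}

/-- The pattern at one place determines which shifts are in another pattern set. -/
theorem transfer {c : ℤ → Bool} {F F' : Finset ℤ} {f g f' g' : ℤ → Bool} {x y t : ℤ}
    (hx : x ∈ VV c F' f' g') (hy : y ∈ VV c F' f' g')
    (ht : t ∈ F') (ht1 : ∀ s ∈ F, t + s ∈ F') (ht2 : ∀ s ∈ F, 2 * t + s ∈ F')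
    (hxt : x + 2 * t ∈ VV c F f g) (h0 : 0 ≤ y + 2 * t) :
    y + 2 * t ∈ VV c F f g := by
  refine ⟨hy.1.add (even_two_mul t), h0, ?_⟩
  intro s hs
  obtain ⟨a1, a2⟩ := hxt.2.2 s hs
  have x1 := (hx.2.2 t ht).1
  have y1 := (hy.2.2 t ht).1
  have x2 := (hx.2.2 (t + s) (ht1 s hs)).1
  have y2 := (hy.2.2 (t + s) (ht1 s hs)).1
  have x3 := (hx.2.2 (2 * t + s) (ht2 s hs)).2
  have y3 := (hy.2.2 (2 * t + s) (ht2 s hs)).2
  have e1 : x + 2 * t + 2 * s = x + 2 * (t + s) := by ring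
  have e2 : y + 2 * t + 2 * s = y + 2 * (t + s) := by ring
  have e3 : 2 * (x + 2 * t) + 2 * s = 2 * x + 2 * (2 * t + s) := by ring
  have e4 : 2 * (y + 2 * t) + 2 * s = 2 * y + 2 * (2 * t + s) := by ring
  rw [e1, x2, x1] at a1
  rw [e3, x3, x1] at a2
  rw [e2, e4, y2, y3, y1]
  revert a1 a2
  cases c x <;> cases c y <;> cases f' t <;> cases f' (t + s) <;> cases g' (2 * t + s) <;>
    cases f s <;> cases g s <;> simp

theorem VV_mid {c : ℤ → Bool} (hc : Bad c) (F : Finset ℤ) (f g : ℤ → Bool)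
    (W : Ultrafilter ℤ) (hW : (W : Filter ℤ) ≤ atTop)
    (hV : ∀ᶠ z in (W : Filter ℤ), 2 * z ∈ VV c F f g) :
    ∀ᶠ z in (W : Filter ℤ), ∀ᶠ y in (W : Filter ℤ), z + y ∈ VV c F f g := by
  classical
  obtain ⟨a, b, hL⟩ := exLim c W hW
  set W2 : Ultrafilter ℤ := W.map (fun v => 2 * v) with hW2def
  have htop : Tendsto (fun v : ℤ => 2 * v) atTop atTop :=
    tendsto_id.const_mul_atTop' (by norm_num)
  have hW2 : (W2 : Filter ℤ) ≤ atTop := by
    rw [hW2def, Ultrafilter.coe_map]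
    exact (Filter.map_mono hW).trans htop
  obtain ⟨a2, b2, hL2⟩ := exLim c W2 hW2
  have ha2 : ∀ t, a2 t = b t := by
    intro t
    have h1 := hL2.h1 t
    rw [hW2def, Ultrafilter.coe_map, Filter.eventually_map] at h1
    obtain ⟨x, h2, h3⟩ := (h1.and (hL.h2 t)).exists
    rw [← h2, ← h3]
  have hb2 : ∀ t, ∀ᶠ x in (W : Filter ℤ), c (4 * x + t) = b2 t := by
    intro t
    have h1 := hL2.h2 t
    rw [hW2def, Ultrafilter.coe_map, Filter.eventually_map] at h1
    filter_upwards [h1] with x hx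
    rw [← hx]; congr 1; ring
  have hf : ∀ t ∈ F, b (2 * t) = xor (b 0) (f t) := by
    intro t ht
    obtain ⟨x, ⟨h1, h2⟩, h3⟩ := ((hV.and (hL.h2 (2 * t))).and (hL.h2 0)).exists
    rw [← h2, ← h3, add_zero]
    exact (h1.2.2 t ht).1
  have hg : ∀ t ∈ F, b2 (2 * t) = xor (b 0) (g t) := by
    intro t ht
    obtain ⟨x, ⟨h1, h2⟩, h3⟩ := ((hV.and (hb2 (2 * t))).and (hL.h2 0)).exists
    rw [← h2, ← h3, add_zero, ← (h1.2.2 t ht).2]
    congr 1; ring
  have hpar : (∀ᶠ z in (W : Filter ℤ), Even z) ∨ (∀ᶠ z in (W : Filter ℤ), ¬ Even z) := by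
    have hor : ∀ᶠ z in (W : Filter ℤ), Even z ∨ ¬ Even z := Eventually.of_forall (fun z => em _)
    exact Ultrafilter.eventually_or.1 hor
  have hEv : ∀ᶠ z in (W : Filter ℤ), ∀ᶠ y in (W : Filter ℤ), Even (z + y) := by
    rcases hpar with hp | hp
    · filter_upwards [hp] with z hz
      filter_upwards [hp] with y hy
      exact hz.add hy
    · filter_upwards [hp] with z hz
      filter_upwards [hp] with y hy
      rw [Int.not_even_iff_odd] at hz hy
      exact hz.add_odd hy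
  have hz0 : ∀ᶠ z in (W : Filter ℤ), ∀ t ∈ F,
      a (z + 2 * t) ≠ b (2 * t) ∧ b (2 * z + 2 * t) ≠ b2 (2 * t) := by
    rw [Filter.eventually_all_finset]
    intro t _
    have h1 := L1 hc hL t
    have h2 := L1 hc hL2 t
    rw [hW2def, Ultrafilter.coe_map, Filter.eventually_map] at h2
    filter_upwards [h1, h2] with z hz1 hz2
    refine ⟨?_, ?_⟩
    · rw [add_comm]; exact hz1
    · rw [ha2] at hz2
      rw [add_comm]; exact hz2
  filter_upwards [hz0, L1 hc hL 0, hEv] with z hz1 hz2 hz3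
  have hfin : ∀ᶠ y in (W : Filter ℤ), ∀ t ∈ F,
      c (y + (z + 2 * t)) = a (z + 2 * t) ∧
        c (2 * y + (2 * z + 2 * t)) = b (2 * z + 2 * t) := by
    rw [Filter.eventually_all_finset]
    intro t _
    exact (hL.h1 _).and (hL.h2 _)
  filter_upwards [hz3, hfin, hL.h1 z, ge_ev hW (-z)] with y hy1 hy2 hy3 hy4
  refine ⟨hy1, by omega, ?_⟩
  intro t ht
  obtain ⟨e1, e2⟩ := hy2 t ht
  obtain ⟨d1, d2⟩ := hz1 t ht
  have g1 := hf t ht
  have g2 := hg t ht
  rw [mul_zero, zero_add] at hz2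
  have i1 : z + y + 2 * t = y + (z + 2 * t) := by ring
  have i2 : 2 * (z + y) + 2 * t = 2 * y + (2 * z + 2 * t) := by ring
  have i3 : z + y = y + z := by ring
  rw [i1, i2, e1, e2, i3, hy3]
  rw [g1] at d1
  rw [g2] at d2
  constructor
  · revert d1 hz2
    cases a (z + 2 * t) <;> cases b 0 <;> cases f t <;> cases a z <;> simp
  · revert d2 hz2
    cases b (2 * z + 2 * t) <;> cases b 0 <;> cases g t <;> cases a z <;> simp

end Pool.Agent.Q213.ON
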