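import Pool.Agent.Q213.ON.Basic

/-!
# The halving chain and the expansion of windows
-/

set_option autoImplicit false

namespace Pool.Agent.Q213.ON

open Filter Set Topology

/-- The properties of a set `V` that are used. -/
structure Good (V : Set ℤ) : Prop where
  inf : ∃ᶠ v in (atTop : Filter ℤ), v ∈ V
  ev : ∀ v ∈ V, Even v
  nn : ∀ v ∈ V, 0 ≤ v
  mid : ∀ W : Ultrafilter ℤ, (W : Filter ℤ) ≤ atTop →
    (∀ᶠ z in (W : Filter ℤ), 2 * z ∈ V) →
    ∀ᶠ z in (W : Filter ℤ), ∀ᶠ y in (W : Filter ℤ), z + y ∈ V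

theorem VV_good {c : ℤ → Bool} (hc : Bad c) (F : Finset ℤ) (f g : ℤ → Bool)
    (hinf : ∃ᶠ v in (atTop : Filter ℤ), v ∈ VV c F f g) : Good (VV c F f g) :=
  ⟨hinf, fun _ hv => hv.1, fun _ hv => hv.2.1, VV_mid hc F f g⟩

theorem two_mul_half {v : ℤ} (h : Even v) : 2 * (v / 2) = v :=
  Int.two_mul_ediv_two_of_even h

theorem final {c : ℤ → Bool} (hc : Bad c) {V : Set ℤ} (hV : Good V) (β : Bool)
    (W : Ultrafilter ℤ) (hW : (W : Filter ℤ) ≤ atTop)
    (hWV : ∀ᶠ z in (W : Filter ℤ), 2 * z ∈ V)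
    (h2 : ∀ᶠ z in (W : Filter ℤ), c (2 * z) = β)
    (h3 : ∀ u : ℤ, ∀ᶠ z in (W : Filter ℤ), u + z ∈ V → c (u + z) = β) : False := by
  refine build hc β (fun u => 0 ≤ u ∧ c (u + u) = β ∧ ∀ᶠ y in (W : Filter ℤ), u + y ∈ V)
    (fun u hu => hu.1) (fun u hu => hu.2.1) ?_
  intro s hs
  have hfin : ∀ᶠ x in (W : Filter ℤ), ∀ u ∈ s, x ≠ u ∧ c (u + x) = β := by
    rw [Filter.eventually_all_finset]
    intro u hu
    refine (ne_ev hW _).and ?_
    filter_upwards [h3 u, (hs u hu).2.2] with x hx1 hx2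
    exact hx1 hx2
  obtain ⟨x, ⟨⟨⟨hx1, hx2⟩, hx3⟩, hx4⟩, hx5⟩ :=
    ((((hWV.and h2).and (hV.mid W hW hWV)).and hfin).and (ge_ev hW 0)).exists
  refine ⟨x, ⟨hx5, ?_, hx3⟩, ?_⟩
  · rw [← two_mul]; exact hx2
  · intro u hu
    exact ⟨fun he => (hx4 u hu).1 he.symm, (hx4 u hu).2⟩

/-- Halving an ultrafilter. -/
theorem half_map {W0 : Ultrafilter ℤ} (h : (W0 : Filter ℤ) ≤ atTop) :
    ((W0.map (fun v => v / 2) : Ultrafilter ℤ) : Filter ℤ) ≤ atTop := by
  rw [Ultrafilter.coe_map]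
  refine (Filter.map_mono h).trans ?_
  rw [← Tendsto]
  refine tendsto_atTop.2 (fun b => ?_)
  filter_upwards [eventually_ge_atTop (2 * b)] with x hx
  omega

/-- The key finite set. -/
theorem propP {c : ℤ → Bool} (hc : Bad c) {V : Set ℤ} (hV : Good V) :
    ∃ m : ℕ, ∀ v ∈ V, ∃ t : ℤ, |t| ≤ m ∧ v / 2 + t ∈ V ∧ c (v / 2 + t) ≠ c v := by
  classical
  by_contra hcon
  push Not at hcon
  set S : ℕ → Set ℤ := fun m =>
    {v | v ∈ V ∧ ∀ t : ℤ, |t| ≤ m → v / 2 + t ∈ V → c (v / 2 + t) = c v} with hS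
  have hne : ∀ m, (S m).Nonempty := by
    intro m
    obtain ⟨v, hv, h⟩ := hcon m
    exact ⟨v, hv, h⟩
  have hanti : ∀ m1 m2 : ℕ, m1 ≤ m2 → S m2 ⊆ S m1 := by
    intro m1 m2 h v hv
    refine ⟨hv.1, fun t ht => hv.2 t (ht.trans ?_)⟩
    exact_mod_cast h
  have hdir : Directed (· ≥ ·) (fun m : ℕ => (𝓟 (S m) : Filter ℤ)) := by
    intro m1 m2
    refine ⟨max m1 m2, ?_, ?_⟩
    · exact principal_mono.2 (hanti _ _ (le_max_left _ _))
    · exact principal_mono.2 (hanti _ _ (le_max_right _ _))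
  have hNB : NeBot (⨅ m : ℕ, (𝓟 (S m) : Filter ℤ)) := by
    rw [iInf_neBot_iff_of_directed hdir]
    intro m
    exact principal_neBot_iff.2 (hne m)
  obtain ⟨W0, hW0⟩ := Ultrafilter.exists_le (⨅ m : ℕ, (𝓟 (S m) : Filter ℤ))
  have hmem : ∀ m, ∀ᶠ v in (W0 : Filter ℤ), v ∈ S m := by
    intro m
    exact hW0 (mem_iInf_of_mem m (mem_principal_self _))
  rcases Ultrafilter.le_cofinite_or_eq_pure W0 with hnp | ⟨v0, hv0⟩
  · -- the free case
    have hW0top : (W0 : Filter ℤ) ≤ atTop := by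
      have : Tendsto (id : ℤ → ℤ) (W0 : Filter ℤ) atTop := by
        refine tendsto_atTop.2 (fun b => ?_)
        have h1 : ∀ᶠ x in (cofinite : Filter ℤ), x ∉ Set.Icc 0 b :=
          (Set.finite_Icc 0 b).eventually_cofinite_notMem
        filter_upwards [h1.filter_mono hnp, hmem 0] with x hx1 hx2
        have h0 := hV.nn x hx2.1
        by_contra hlt
        exact hx1 ⟨h0, (not_le.1 hlt).le⟩
      simpa [Tendsto] using this
    obtain ⟨β, hβ⟩ := exlim W0 c
    set W : Ultrafilter ℤ := W0.map (fun v => v / 2) with hWdef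
    have hW : (W : Filter ℤ) ≤ atTop := half_map hW0top
    refine final hc hV β W hW ?_ ?_ ?_
    · rw [hWdef, Ultrafilter.coe_map, Filter.eventually_map]
      filter_upwards [hmem 0] with v hv
      rw [two_mul_half (hV.ev v hv.1)]; exact hv.1
    · rw [hWdef, Ultrafilter.coe_map, Filter.eventually_map]
      filter_upwards [hβ, hmem 0] with v hv hv2
      rw [two_mul_half (hV.ev v hv2.1)]; exact hv
    · intro u
      rw [hWdef, Ultrafilter.coe_map, Filter.eventually_map]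
      filter_upwards [hβ, hmem u.natAbs] with v hv hv2 hv3
      rw [add_comm] at hv3 ⊢
      rw [hv2.2 u (by rw [Int.natCast_natAbs]) hv3, hv]
  · -- the principal case: the colouring is constant on `V`
    have hv0' : ∀ m, v0 ∈ S m := by
      intro m
      have := hmem m
      rw [hv0] at this
      simpa using this
    have hconst : ∀ v ∈ V, c v = c v0 := by
      intro v hv
      have h := (hv0' (v - v0 / 2).natAbs).2 (v - v0 / 2) (by rw [Int.natCast_natAbs])
      have e : v0 / 2 + (v - v0 / 2) = v := by ring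
      rw [e] at h
      exact h hv
    have hNB2 : NeBot (atTop ⊓ 𝓟 V : Filter ℤ) := by
      exact Filter.frequently_mem_iff_neBot.1 hV.inf
    obtain ⟨W1, hW1⟩ := Ultrafilter.exists_le (atTop ⊓ 𝓟 V : Filter ℤ)
    have hW1V : ∀ᶠ v in (W1 : Filter ℤ), v ∈ V :=
      hW1 (mem_inf_of_right (mem_principal_self V))
    set W : Ultrafilter ℤ := W1.map (fun v => v / 2) with hWdef
    have hW : (W : Filter ℤ) ≤ atTop := half_map (hW1.trans inf_le_left)
    refine final hc hV (c v0) W hW ?_ ?_ ?_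
    · rw [hWdef, Ultrafilter.coe_map, Filter.eventually_map]
      filter_upwards [hW1V] with v hv
      rw [two_mul_half (hV.ev v hv)]; exact hv
    · rw [hWdef, Ultrafilter.coe_map, Filter.eventually_map]
      filter_upwards [hW1V] with v hv
      rw [two_mul_half (hV.ev v hv)]; exact hconst v hv
    · intro u
      exact Eventually.of_forall (fun z hz => hconst _ hz)

/-- The constant of a set. -/
def PC (c : ℤ → Bool) (V : Set ℤ) (m : ℕ) : Prop :=
  ∀ v ∈ V, ∃ t : ℤ, |t| ≤ m ∧ v / 2 + t ∈ V ∧ c (v / 2 + t) ≠ c v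

/-- Following the halving chain. -/
theorem chain {c : ℤ → Bool} {V : Set ℤ} (hev : ∀ v ∈ V, Even v) {m : ℕ}
    (hP : PC c V m) {v : ℤ} (hv : v ∈ V) (i : ℕ) :
    ∃ y ∈ V, |2 ^ i * y - v| ≤ 2 * m * (2 ^ i - 1) ∧ c y = xor (c v) (Nat.bodd i) := by
  induction i with
  | zero => exact ⟨v, hv, by simp, by simp⟩
  | succ i ih =>
    obtain ⟨y, hy, h1, h2⟩ := ih
    obtain ⟨t, ht, hVt, hct⟩ := hP y hy
    refine ⟨y / 2 + t, hVt, ?_, ?_⟩
    · have e : (2 : ℤ) ^ (i + 1) * (y / 2 + t) - v = (2 ^ i * y - v) + 2 ^ (i + 1) * t := by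
        have h3 := two_mul_half (hev y hy)
        calc (2 : ℤ) ^ (i + 1) * (y / 2 + t) - v
            = 2 ^ i * (2 * (y / 2)) + 2 ^ (i + 1) * t - v := by ring
          _ = (2 ^ i * y - v) + 2 ^ (i + 1) * t := by rw [h3]; ring
      rw [e]
      have h4 : |(2 : ℤ) ^ (i + 1) * t| ≤ 2 ^ (i + 1) * m := by
        rw [abs_mul, abs_of_pos (by positivity : (0 : ℤ) < 2 ^ (i + 1))]
        exact mul_le_mul_of_nonneg_left ht (by positivity)
      calc |(2 ^ i * y - v) + 2 ^ (i + 1) * t|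
          ≤ |2 ^ i * y - v| + |(2 : ℤ) ^ (i + 1) * t| := abs_add_le _ _
        _ ≤ 2 * m * (2 ^ i - 1) + 2 ^ (i + 1) * m := add_le_add h1 h4
        _ = 2 * m * (2 ^ (i + 1) - 1) := by ring
    · rw [Nat.bodd_succ]
      rw [h2] at hct
      revert hct
      cases c (y / 2 + t) <;> cases c v <;> cases Nat.bodd i <;> simp

/-- Windows on which the colouring is constant on `V` expand. -/
theorem expand {c : ℤ → Bool} {V : Set ℤ} (hev : ∀ v ∈ V, Even v) {m : ℕ}
    (hP : PC c V m) {x r : ℤ} {a : Bool}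
    (hw : ∀ v ∈ V, |v - x| ≤ r → c v = a) (i : ℕ) :
    ∀ v ∈ V, |v - 2 ^ i * x| ≤ 2 ^ i * (r - 2 * m) + 2 * m →
      c v = xor a (Nat.bodd i) := by
  induction i with
  | zero =>
    intro v hv h
    have h1 := hw v hv (by
      rw [pow_zero, one_mul, one_mul] at h
      linarith)
    rw [h1]; simp
  | succ i ih =>
    intro v hv h
    obtain ⟨t, ht, hVt, hct⟩ := hP v hv
    have h3 := two_mul_half (hev v hv)
    have h5 : |(v / 2 + t) - 2 ^ i * x| ≤ 2 ^ i * (r - 2 * m) + 2 * m := by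
      rw [abs_le] at h ht ⊢
      have e1 : (2 : ℤ) ^ (i + 1) = 2 * 2 ^ i := by ring
      rw [e1] at h
      set p : ℤ := 2 ^ i with hp
      set q := v / 2 with hq
      obtain ⟨hA, hB⟩ := h
      rw [← h3] at hA hB
      constructor
      · nlinarith
      · nlinarith
    have h6 := ih _ hVt h5
    rw [Nat.bodd_succ]
    rw [h6] at hct
    revert hct
    cases c v <;> cases a <;> cases Nat.bodd i <;> simp

end Pool.Agent.Q213.ON
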