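import Pool.Agent.Q213.ON.Scale

/-!
# Density of the scales and free windows
-/

set_option autoImplicit false

namespace Pool.Agent.Q213.ON

open Filter Set Topology

/-- The even integer just below a real number. -/
theorem exists_even_near (y : ℝ) : ∃ x : ℤ, Even x ∧ |(x : ℝ) - y| ≤ 2 := by
  refine ⟨2 * ⌊y / 2⌋, even_two_mul _, ?_⟩
  have h1 := Int.floor_le (y / 2)
  have h2 := Int.lt_floor_add_one (y / 2)
  push_cast
  rw [abs_le]
  constructor <;> linarith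

theorem dense_Om {c : ℤ → Bool} (hc : Bad c) {F : Finset ℤ} {f g : ℤ → Bool} {m : ℕ}
    (hP : PC c (VV c F f g) m) {s : Bool} (hne : (Om c (VV c F f g) s).Nonempty)
    {α β : ℝ} (hα : 0 < α) (hαβ : α < β) : ∃ μ ∈ Om c (VV c F f g) s, α < μ ∧ μ < β := by
  by_contra hcon
  push Not at hcon
  obtain ⟨μ0, hμ0⟩ := hne
  set S : Set ℝ := {μ | μ ∈ Om c (VV c F f g) s ∧ μ ≤ α} with hS
  have hSne : S.Nonempty := by
    have h1 : Tendsto (fun i : ℕ => (4 : ℝ) ^ i * α) atTop atTop :=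
      (tendsto_pow_atTop_atTop_of_one_lt (by norm_num)).atTop_mul_const hα
    obtain ⟨i, hi⟩ := (h1.eventually_ge_atTop μ0).exists
    refine ⟨μ0 / 4 ^ i, Om_quarter_pow hμ0 i, ?_⟩
    rw [div_le_iff₀ (by positivity)]
    linarith
  have hSb : BddAbove S := ⟨α, fun _ h => h.2⟩
  set μ2 := sSup S with hμ2
  have hle : μ2 ≤ α := csSup_le hSne (fun _ h => h.2)
  obtain ⟨μ1, hμ1⟩ := hSne
  have hpos : 0 < μ2 := lt_of_lt_of_le hμ1.1.1 (le_csSup hSb hμ1)
  obtain ⟨ν, hν, hν1, hν2⟩ := right_acc hc hP (s := s) (r := 2 * m + 1) (by linarith)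
    hpos (by
      intro N
      have hN1 : (0 : ℝ) < 1 / (2 * (N + 1)) := by positivity
      obtain ⟨μ, hμS, hμlt⟩ := exists_lt_of_lt_csSup ⟨μ1, hμ1⟩
        (show μ2 - 1 / (2 * (N + 1)) < sSup S by rw [← hμ2]; linarith)
      have hμle : μ ≤ μ2 := le_csSup hSb hμS
      obtain ⟨hμp, ε, hε, J, hJ⟩ := hμS.1
      have hA : Tendsto (fun n : ℕ => (2 : ℝ) ^ n * ε) atTop atTop :=
        (tendsto_pow_atTop_atTop_of_one_lt (by norm_num)).atTop_mul_const hε
      have hB : Tendsto (fun n : ℕ => (2 : ℝ) ^ n * (1 / (2 * (N + 1)))) atTop atTop :=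
        (tendsto_pow_atTop_atTop_of_one_lt (by norm_num)).atTop_mul_const hN1
      obtain ⟨k, ⟨⟨hk1, hk2⟩, hk3⟩⟩ :=
        (((hA.eventually_ge_atTop ((2 * m + 1 : ℝ) + 2)).and
          (hB.eventually_ge_atTop 2)).and (eventually_ge_atTop (max N J))).exists
      obtain ⟨x, hxe, hxd⟩ := exists_even_near (2 ^ k * μ)
      have hp : (0 : ℝ) < 2 ^ k := by positivity
      refine ⟨k, (le_max_left _ _).trans hk3, x, hxe, ?_, ?_⟩
      · have h1 : |(x : ℝ) / 2 ^ k - μ| ≤ 1 / (2 * (N + 1)) := by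
          have e : (x : ℝ) / 2 ^ k - μ = ((x : ℝ) - 2 ^ k * μ) / 2 ^ k := by field_simp
          rw [e, abs_div, abs_of_pos hp, div_le_iff₀ hp]
          calc |(x : ℝ) - 2 ^ k * μ| ≤ 2 := hxd
            _ ≤ 2 ^ k * (1 / (2 * (N + 1))) := hk2
            _ = 1 / (2 * (N + 1)) * 2 ^ k := by ring
        have h2 : |μ - μ2| ≤ 1 / (2 * (N + 1)) := by
          rw [abs_le]; constructor <;> linarith
        have e : (x : ℝ) / 2 ^ k - μ2 = ((x : ℝ) / 2 ^ k - μ) + (μ - μ2) := by ring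
        rw [e]
        calc |((x : ℝ) / 2 ^ k - μ) + (μ - μ2)|
            ≤ |(x : ℝ) / 2 ^ k - μ| + |μ - μ2| := abs_add_le _ _
          _ ≤ 1 / (2 * (N + 1)) + 1 / (2 * (N + 1)) := add_le_add h1 h2
          _ = 1 / (N + 1) := by field_simp; norm_num
      · intro v hv hvx
        apply hJ k ((le_max_right _ _).trans hk3) v hv
        have h1 : |(v : ℝ) - x| ≤ 2 * m + 1 := by
          have : ((|v - x| : ℤ) : ℝ) ≤ ((2 * m + 1 : ℤ) : ℝ) := by exact_mod_cast hvx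
          push_cast at this
          exact this
        have e : (v : ℝ) - 2 ^ k * μ = ((v : ℝ) - x) + ((x : ℝ) - 2 ^ k * μ) := by ring
        rw [e]
        calc |((v : ℝ) - x) + ((x : ℝ) - 2 ^ k * μ)|
            ≤ |(v : ℝ) - x| + |(x : ℝ) - 2 ^ k * μ| := abs_add_le _ _
          _ ≤ (2 * m + 1) + 2 := add_le_add h1 hxd
          _ ≤ 2 ^ k * ε := hk1)
    (β - μ2) (by linarith)
  have h1 : α < ν := by
    by_contra h2
    have h3 : ν ≤ μ2 := le_csSup hSb ⟨hν, not_lt.1 h2⟩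
    linarith
  have h2 := hcon ν hν h1
  linarith

/-- Both colours occur on `V` in every long enough window. -/
def Syn (c : ℤ → Bool) (V : Set ℤ) : Prop :=
  ∃ R : ℕ, ∀ᶠ x : ℤ in atTop, ∃ v ∈ V, ∃ v' ∈ V, |v - x| ≤ R ∧ |v' - x| ≤ R ∧ c v ≠ c v'

theorem Om_nonempty {c : ℤ → Bool} (F : Finset ℤ) (f g : ℤ → Bool) {m : ℕ}
    (hP : PC c (VV c F f g) m) (hS : ¬ Syn c (VV c F f g)) (s : Bool) :
    (Om c (VV c F f g) s).Nonempty := by
  have h1 : ∃ᶠ x : ℤ in atTop, ∀ v ∈ VV c F f g, ∀ v' ∈ VV c F f g,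
      |v - x| ≤ (2 * m + 1 : ℕ) → |v' - x| ≤ (2 * m + 1 : ℕ) → c v = c v' := by
    by_contra hcon
    apply hS
    refine ⟨2 * m + 1, ?_⟩
    rw [Filter.not_frequently] at hcon
    filter_upwards [hcon] with x hx
    push Not at hx
    exact hx
  obtain ⟨x, hx, hx0⟩ := (h1.and_eventually (eventually_gt_atTop 0)).exists
  obtain ⟨a, ha⟩ : ∃ a : Bool, ∀ v ∈ VV c F f g, |v - x| ≤ 2 * m + 1 → c v = a := by
    by_cases hex : ∃ v ∈ VV c F f g, |v - x| ≤ 2 * m + 1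
    · obtain ⟨v, hv, hvx⟩ := hex
      refine ⟨c v, fun w hw hwx => ?_⟩
      exact hx w hw v hv (by push_cast; exact hwx) (by push_cast; exact hvx)
    · refine ⟨true, fun w hw hwx => absurd ⟨w, hw, hwx⟩ hex⟩
  have hev : ∀ v ∈ VV c F f g, Even v := fun v hv => hv.1
  by_cases has : a = s
  · subst has
    exact ⟨_, Om_of_window hev hP (s := a) hx0 (r := 2 * m + 1) (by linarith) 0
      (by intro v hv h; rw [ha v hv h]; simp)⟩
  · refine ⟨_, Om_of_window hev hP (s := s) hx0 (r := 2 * m + 1) (by linarith) 1 ?_⟩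
    intro v hv h
    rw [ha v hv h]
    revert has
    cases a <;> cases s <;> simp

/-- The free scales. -/
def Fr (V : Set ℤ) : Set ℝ :=
  {μ | 0 < μ ∧ ∃ ε > 0, ∃ J : ℕ, ∀ j ≥ J, ∀ v ∈ V, ¬ |(v : ℝ) - 2 ^ j * μ| ≤ 2 ^ j * ε}

theorem dense_Fr {c : ℤ → Bool} (hc : Bad c) (F : Finset ℤ) (f g : ℤ → Bool)
    (hS : ¬ Syn c (VV c F f g)) {α β : ℝ} (hα : 0 < α) (hαβ : α < β) :
    ∃ μ ∈ Fr (VV c F f g), α < μ ∧ μ < β := by
  by_cases hinf : ∃ᶠ v in (atTop : Filter ℤ), v ∈ VV c F f g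
  · obtain ⟨m, hP⟩ := propP hc (VV_good hc F f g hinf)
    obtain ⟨μ1, h1, h1a, h1b⟩ := dense_Om hc hP (Om_nonempty F f g hP hS true) hα hαβ
    obtain ⟨δ, hδ, hδ'⟩ := Om_open h1
    obtain ⟨μ2, h2, h2a, h2b⟩ := dense_Om hc hP (Om_nonempty F f g hP hS false)
      (α := μ1) (β := min β (μ1 + δ)) (by linarith) (lt_min h1b (by linarith))
    have h3 : μ2 ∈ Om c (VV c F f g) true := by
      apply hδ'
      have := lt_min_iff.1 h2b
      rw [abs_lt]; constructor <;> linarith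
    obtain ⟨hp, ε, hε, J, hJ⟩ := h2
    obtain ⟨_, ε', hε', J', hJ'⟩ := h3
    refine ⟨μ2, ⟨hp, min ε ε', lt_min hε hε', max J J', ?_⟩, by linarith,
      (lt_min_iff.1 h2b).1⟩
    intro j hj v hv hd
    have hpj : (0 : ℝ) < 2 ^ j := by positivity
    have a1 := hJ j ((le_max_left _ _).trans hj) v hv
      (hd.trans (mul_le_mul_of_nonneg_left (min_le_left _ _) hpj.le))
    have a2 := hJ' j ((le_max_right _ _).trans hj) v hv
      (hd.trans (mul_le_mul_of_nonneg_left (min_le_right _ _) hpj.le))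
    rw [a1] at a2
    revert a2
    cases Nat.bodd j <;> simp
  · rw [Filter.not_frequently] at hinf
    obtain ⟨b, hb⟩ := eventually_atTop.1 hinf
    have hμpos : 0 < (α + β) / 2 := by linarith
    refine ⟨(α + β) / 2, ⟨hμpos, (α + β) / 4, by linarith, ?_⟩, by linarith, by linarith⟩
    have h1 : Tendsto (fun n : ℕ => (2 : ℝ) ^ n * ((α + β) / 4)) atTop atTop :=
      (tendsto_pow_atTop_atTop_of_one_lt (by norm_num)).atTop_mul_const (by linarith)
    obtain ⟨J, hJ⟩ := eventually_atTop.1 (h1.eventually_ge_atTop (b : ℝ))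
    refine ⟨J, ?_⟩
    intro j hj v hv hd
    have h2 := hJ j hj
    have h3 := (abs_le.1 hd).1
    have h4 : (b : ℝ) ≤ v := by
      have e : (2 : ℝ) ^ j * ((α + β) / 2) = 2 * (2 ^ j * ((α + β) / 4)) := by ring
      rw [e] at h3
      linarith
    exact hb v (by exact_mod_cast h4) hv

/-- The index type of the pattern sets. -/
abbrev Idx : Type := Finset ℤ × (ℤ → Bool) × (ℤ → Bool)

/-- The pattern set of an index. -/
def VI (c : ℤ → Bool) (p : Idx) : Set ℤ := VV c p.1 p.2.1 p.2.2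

theorem common_free {c : ℤ → Bool} (hc : Bad c) (T : Finset Idx)
    (hT : ∀ p ∈ T, ¬ Syn c (VI c p)) :
    ∀ α β : ℝ, 0 < α → α < β → ∃ μ, α < μ ∧ μ < β ∧ ∃ ε > 0, ∃ J : ℕ, ∀ j ≥ J,
      ∀ p ∈ T, ∀ v ∈ VI c p, ¬ |(v : ℝ) - 2 ^ j * μ| ≤ 2 ^ j * ε := by
  classical
  induction T using Finset.induction_on with
  | empty =>
    intro α β hα hαβ
    exact ⟨(α + β) / 2, by linarith, by linarith, 1, one_pos, 0, by simp⟩
  | insert p T hp ih =>
    intro α β hα hαβ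
    obtain ⟨μ, h1, h2, ε, hε, J, hJ⟩ := ih (fun q hq => hT q (Finset.mem_insert_of_mem hq))
      α β hα hαβ
    obtain ⟨ν, ⟨hν0, ε', hε', J', hJ'⟩, hν1, hν2⟩ := dense_Fr hc p.1 p.2.1 p.2.2
      (hT p (Finset.mem_insert_self _ _)) (α := μ) (β := min β (μ + ε / 2))
      (by linarith) (lt_min h2 (by linarith))
    have h3 := lt_min_iff.1 hν2
    refine ⟨ν, by linarith, h3.1, min ε' (ε / 2), lt_min hε' (by linarith), max J J', ?_⟩
    intro j hj q hq v hv hd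
    have hpj : (0 : ℝ) < 2 ^ j := by positivity
    rcases Finset.mem_insert.1 hq with rfl | hq
    · exact hJ' j ((le_max_right _ _).trans hj) v hv
        (hd.trans (mul_le_mul_of_nonneg_left (min_le_left _ _) hpj.le))
    · apply hJ j ((le_max_left _ _).trans hj) q hq v hv
      have e : (v : ℝ) - 2 ^ j * μ = ((v : ℝ) - 2 ^ j * ν) + 2 ^ j * (ν - μ) := by ring
      rw [e]
      have h5 : |(2 : ℝ) ^ j * (ν - μ)| ≤ 2 ^ j * (ε / 2) := by
        rw [abs_mul, abs_of_pos hpj]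
        refine mul_le_mul_of_nonneg_left ?_ hpj.le
        rw [abs_le]; constructor <;> linarith
      calc |((v : ℝ) - 2 ^ j * ν) + 2 ^ j * (ν - μ)|
          ≤ |(v : ℝ) - 2 ^ j * ν| + |(2 : ℝ) ^ j * (ν - μ)| := abs_add_le _ _
        _ ≤ 2 ^ j * (ε / 2) + 2 ^ j * (ε / 2) := add_le_add
            (hd.trans (mul_le_mul_of_nonneg_left (min_le_right _ _) hpj.le)) h5
        _ = 2 ^ j * ε := by ring

theorem exists_outside {c : ℤ → Bool} (hc : Bad c) (T : Finset Idx)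
    (hT : ∀ p ∈ T, ¬ Syn c (VI c p)) (b : ℤ) :
    ∃ x : ℤ, b ≤ x ∧ Even x ∧ ∀ p ∈ T, x ∉ VI c p := by
  obtain ⟨μ, h1, h2, ε, hε, J, hJ⟩ := common_free hc T hT 1 2 one_pos (by norm_num)
  have hA : Tendsto (fun n : ℕ => (2 : ℝ) ^ n * ε) atTop atTop :=
    (tendsto_pow_atTop_atTop_of_one_lt (by norm_num)).atTop_mul_const hε
  have hB : Tendsto (fun n : ℕ => (2 : ℝ) ^ n * μ) atTop atTop :=
    (tendsto_pow_atTop_atTop_of_one_lt (by norm_num)).atTop_mul_const (by linarith)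
  obtain ⟨j, ⟨⟨hj1, hj2⟩, hj3⟩⟩ :=
    (((hA.eventually_ge_atTop 2).and (hB.eventually_ge_atTop ((b : ℝ) + 2))).and
      (eventually_ge_atTop J)).exists
  obtain ⟨x, hxe, hxd⟩ := exists_even_near (2 ^ j * μ)
  refine ⟨x, ?_, hxe, ?_⟩
  · have h3 := (abs_le.1 hxd).1
    have h4 : (b : ℝ) ≤ x := by linarith
    exact_mod_cast h4
  · intro p hp hx
    exact hJ j hj3 p hp x hx (hxd.trans hj1)

end Pool.Agent.Q213.ON
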