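import Pool.Agent.Q213.ON.Dense

/-!
# Owings' problem

Every 2-colouring of the natural numbers has an infinite set `X` such that
`X + X` is monochromatic.
-/

set_option autoImplicit false

namespace Pool.Agent.Q213.ON

open Filter Set Topology

/-- The filter of the places that avoid all pattern sets in which the two
colours do not both occur in every window. -/
noncomputable def G0 (c : ℤ → Bool) : Filter ℤ :=
  atTop ⊓ 𝓟 {x | Even x} ⊓
    ⨅ T : {T : Finset Idx // ∀ p ∈ T, ¬ Syn c (VI c p)}, 𝓟 {x | ∀ p ∈ T.1, x ∉ VI c p}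

theorem G0_neBot {c : ℤ → Bool} (hc : Bad c) : NeBot (G0 c) := by
  classical
  have hdir : Directed (· ≥ ·)
      (fun T : {T : Finset Idx // ∀ p ∈ T, ¬ Syn c (VI c p)} =>
        (𝓟 {x : ℤ | ∀ p ∈ T.1, x ∉ VI c p} : Filter ℤ)) := by
    rintro ⟨T1, h1⟩ ⟨T2, h2⟩
    refine ⟨⟨T1 ∪ T2, ?_⟩, ?_, ?_⟩
    · intro p hp
      rcases Finset.mem_union.1 hp with h | h
      · exact h1 p h
      · exact h2 p h
    · exact principal_mono.2 (fun x hx p hp => hx p (Finset.mem_union_left _ hp))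
    · exact principal_mono.2 (fun x hx p hp => hx p (Finset.mem_union_right _ hp))
  have hne0 : Nonempty {T : Finset Idx // ∀ p ∈ T, ¬ Syn c (VI c p)} :=
    ⟨⟨∅, by simp⟩⟩
  unfold G0
  rw [inf_iInf]
  rw [iInf_neBot_iff_of_directed]
  · rintro ⟨T, hT⟩
    rw [inf_assoc, inf_principal]
    rw [← Filter.frequently_mem_iff_neBot]
    rw [Filter.frequently_atTop]
    intro b
    obtain ⟨x, h1, h2, h3⟩ := exists_outside hc T hT b
    exact ⟨x, h1, h2, h3⟩
  · exact hdir.mono_comp _ (fun _ _ h => inf_le_inf_left _ h)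

theorem G0_top {c : ℤ → Bool} {U : Ultrafilter ℤ} (h : (U : Filter ℤ) ≤ G0 c) :
    (U : Filter ℤ) ≤ atTop := h.trans (inf_le_left.trans inf_le_left)

theorem G0_even {c : ℤ → Bool} {U : Ultrafilter ℤ} (h : (U : Filter ℤ) ≤ G0 c) :
    ∀ᶠ x in (U : Filter ℤ), Even x :=
  (h.trans (inf_le_left.trans inf_le_right)) (mem_principal_self _)

theorem G0_avoid {c : ℤ → Bool} {U : Ultrafilter ℤ} (h : (U : Filter ℤ) ≤ G0 c)
    (p : Idx) (hp : ¬ Syn c (VI c p)) : ∀ᶠ x in (U : Filter ℤ), x ∉ VI c p := by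
  have h1 : (U : Filter ℤ) ≤ 𝓟 {x : ℤ | ∀ q ∈ ({p} : Finset Idx), x ∉ VI c q} := by
    refine h.trans (inf_le_right.trans ?_)
    exact iInf_le (fun T : {T : Finset Idx // ∀ p ∈ T, ¬ Syn c (VI c p)} =>
        (𝓟 {x : ℤ | ∀ p ∈ T.1, x ∉ VI c p} : Filter ℤ)) ⟨{p}, by
          intro q hq
          rw [Finset.mem_singleton] at hq
          rw [hq]; exact hp⟩
  filter_upwards [h1 (mem_principal_self _)] with x hx
  exact hx p (Finset.mem_singleton_self p)

theorem le_G0 {c : ℤ → Bool} {U : Ultrafilter ℤ} (h1 : (U : Filter ℤ) ≤ atTop)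
    (h2 : ∀ᶠ x in (U : Filter ℤ), Even x)
    (h3 : ∀ p : Idx, ¬ Syn c (VI c p) → ∀ᶠ x in (U : Filter ℤ), x ∉ VI c p) :
    (U : Filter ℤ) ≤ G0 c := by
  refine le_inf (le_inf h1 (le_principal_iff.2 h2)) (le_iInf ?_)
  rintro ⟨T, hT⟩
  rw [le_principal_iff]
  have h4 : ∀ᶠ x in (U : Filter ℤ), ∀ p ∈ T, x ∉ VI c p := by
    rw [Filter.eventually_all_finset]
    intro p hp
    exact h3 p (hT p hp)
  exact h4

/-- The pattern of an ultrafilter on a window. -/
theorem ev_pattern {c : ℤ → Bool} {U : Ultrafilter ℤ} {f g : ℤ → Bool}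
    (hL : Lim c U f g) (hE : ∀ᶠ x in (U : Filter ℤ), Even x) (F : Finset ℤ) :
    ∀ᶠ x in (U : Filter ℤ), x ∈ VV c F (fun t => xor (f 0) (f (2 * t)))
      (fun t => xor (f 0) (g (2 * t))) := by
  have hfin : ∀ᶠ x in (U : Filter ℤ), ∀ t ∈ F,
      c (x + 2 * t) = f (2 * t) ∧ c (2 * x + 2 * t) = g (2 * t) := by
    rw [Filter.eventually_all_finset]
    intro t _
    exact (hL.h1 _).and (hL.h2 _)
  filter_upwards [hE, hfin, hL.h1 0, ge_ev hL.np 0] with x hx1 hx2 hx3 hx4
  rw [add_zero] at hx3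
  refine ⟨hx1, hx4, ?_⟩
  intro t ht
  obtain ⟨e1, e2⟩ := hx2 t ht
  rw [e1, e2, hx3]
  constructor
  · change f (2 * t) = xor (f 0) (xor (f 0) (f (2 * t)))
    cases f 0 <;> cases f (2 * t) <;> rfl
  · change g (2 * t) = xor (f 0) (xor (f 0) (g (2 * t)))
    cases f 0 <;> cases g (2 * t) <;> rfl

theorem G0_shift {c : ℤ → Bool} {U : Ultrafilter ℤ}
    (h : (U : Filter ℤ) ≤ G0 c) (w : ℤ) :
    ((U.map (fun x => x + 2 * w) : Ultrafilter ℤ) : Filter ℤ) ≤ G0 c := by
  classical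
  have htop : Tendsto (fun x : ℤ => x + 2 * w) atTop atTop :=
    tendsto_atTop_add_const_right _ _ tendsto_id
  refine le_G0 ?_ ?_ ?_
  · rw [Ultrafilter.coe_map]
    exact (Filter.map_mono (G0_top h)).trans htop
  · rw [Ultrafilter.coe_map, Filter.eventually_map]
    filter_upwards [G0_even h] with x hx
    exact hx.add (even_two_mul w)
  · intro p hp
    rw [Ultrafilter.coe_map, Filter.eventually_map]
    by_contra hcon
    have hev : ∀ᶠ x in (U : Filter ℤ), x + 2 * w ∈ VI c p := by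
      by_contra h2
      exact hcon (Ultrafilter.eventually_not.2 h2)
    obtain ⟨f, g, hL⟩ := exLim c U (G0_top h)
    set F' : Finset ℤ := insert w (p.1.image (fun s => w + s) ∪ p.1.image (fun s => 2 * w + s))
      with hF'
    set V' := VV c F' (fun t => xor (f 0) (f (2 * t))) (fun t => xor (f 0) (g (2 * t)))
      with hV'
    have hUV' : ∀ᶠ x in (U : Filter ℤ), x ∈ V' := ev_pattern hL (G0_even h) F'
    have hSyn' : Syn c V' := by
      by_contra hns
      have := G0_avoid h (F', (fun t => xor (f 0) (f (2 * t))),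
        (fun t => xor (f 0) (g (2 * t)))) hns
      obtain ⟨x, hx1, hx2⟩ := (this.and hUV').exists
      exact hx1 hx2
    apply hp
    obtain ⟨x0, hx0, hx0'⟩ := (hUV'.and hev).exists
    have hw : w ∈ F' := Finset.mem_insert_self _ _
    have hw1 : ∀ s ∈ p.1, w + s ∈ F' := fun s hs =>
      Finset.mem_insert_of_mem (Finset.mem_union_left _ (Finset.mem_image_of_mem _ hs))
    have hw2 : ∀ s ∈ p.1, 2 * w + s ∈ F' := fun s hs =>
      Finset.mem_insert_of_mem (Finset.mem_union_right _ (Finset.mem_image_of_mem _ hs))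
    obtain ⟨R, hR⟩ := hSyn'
    refine ⟨R + 2 * w.natAbs, ?_⟩
    filter_upwards [hR, eventually_ge_atTop ((R : ℤ) + 2 * |w|)] with x hx hx2
    obtain ⟨v, hv, v', hv', h1, h2, h3⟩ := hx
    have hge : ∀ y : ℤ, |y - x| ≤ R → 0 ≤ y + 2 * w := by
      intro y hy
      have a1 := (abs_le.1 hy).1
      have a2 := neg_abs_le w
      linarith
    have hdist : ∀ y : ℤ, |y - x| ≤ R → |y + 2 * w - x| ≤ ((R + 2 * w.natAbs : ℕ) : ℤ) := by
      intro y hy
      push_cast
      have e : y + 2 * w - x = (y - x) + 2 * w := by ring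
      rw [e]
      calc |(y - x) + 2 * w| ≤ |y - x| + |2 * w| := abs_add_le _ _
        _ = |y - x| + 2 * |w| := by rw [abs_mul]; rfl
        _ ≤ R + 2 * |w| := by linarith
    refine ⟨v + 2 * w, transfer hx0 hv hw hw1 hw2 hx0' (hge v h1),
      v' + 2 * w, transfer hx0 hv' hw hw1 hw2 hx0' (hge v' h2), hdist v h1, hdist v' h2, ?_⟩
    have a1 := (hv.2.2 w hw).1
    have a2 := (hv'.2.2 w hw).1
    rw [a1, a2]
    revert h3
    cases c v <;> cases c v' <;> simp

/-- Translating by a suitable element changes the pattern to its opposite. -/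
theorem L3 {c : ℤ → Bool} {U : Ultrafilter ℤ} {f g : ℤ → Bool}
    (hL : Lim c U f g) (hG : (U : Filter ℤ) ≤ G0 c) (F : Finset ℤ) :
    ∃ w : ℤ, ∀ t ∈ F, f (2 * w + 2 * t) ≠ f (2 * t) ∧ g (4 * w + 2 * t) ≠ g (2 * t) := by
  classical
  set V : Set ℤ := VV c F (fun t => xor (f 0) (f (2 * t))) (fun t => xor (f 0) (g (2 * t)))
    with hVdef
  have hUV : ∀ᶠ x in (U : Filter ℤ), x ∈ V := ev_pattern hL (G0_even hG) F
  have hSyn : Syn c V := by
    by_contra hns
    have := G0_avoid hG (F, (fun t => xor (f 0) (f (2 * t))),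
      (fun t => xor (f 0) (g (2 * t)))) hns
    obtain ⟨x, hx1, hx2⟩ := (this.and hUV).exists
    exact hx1 hx2
  obtain ⟨R, hR⟩ := hSyn
  have hev : ∀ᶠ x in (U : Filter ℤ), ∃ w ∈ Set.Icc (-(R : ℤ)) R,
      x + 2 * w ∈ V ∧ c (x + 2 * w) ≠ c x := by
    filter_upwards [hUV, hL.np hR] with x hx hx2
    obtain ⟨v, hv, v', hv', h1, h2, h3⟩ := hx2
    have key : ∀ y ∈ V, |y - x| ≤ R → c y ≠ c x → ∃ w ∈ Set.Icc (-(R : ℤ)) R,
        x + 2 * w ∈ V ∧ c (x + 2 * w) ≠ c x := by
      intro y hy hyx hyc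
      have he : Even (y - x) := hy.1.sub hx.1
      have e1 : 2 * ((y - x) / 2) = y - x := two_mul_half he
      have e2 : x + 2 * ((y - x) / 2) = y := by rw [e1]; ring
      refine ⟨(y - x) / 2, ?_, ?_⟩
      · rw [abs_le] at hyx
        constructor <;> omega
      · rw [e2]; exact ⟨hy, hyc⟩
    by_cases hvc : c v = c x
    · exact key v' hv' h2 (by rw [← hvc]; exact fun h => h3 h.symm)
    · exact key v hv h1 hvc
  rw [Ultrafilter.eventually_exists_mem_iff (Set.finite_Icc _ _)] at hev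
  obtain ⟨w, _, hw⟩ := hev
  refine ⟨w, ?_⟩
  intro t ht
  obtain ⟨x, ⟨⟨⟨⟨h1, h2⟩, h3⟩, h4⟩, h5⟩, h6⟩ :=
    (((((hw.and hUV).and (hL.h1 (2 * w + 2 * t))).and (hL.h1 (2 * t))).and
      (hL.h2 (4 * w + 2 * t))).and (hL.h2 (2 * t))).exists
  have p1 := (h1.1.2.2 t ht)
  have p2 := (h2.2.2 t ht)
  have i1 : x + 2 * w + 2 * t = x + (2 * w + 2 * t) := by ring
  have i2 : 2 * (x + 2 * w) + 2 * t = 2 * x + (4 * w + 2 * t) := by ring
  rw [i1, i2, h3, h5] at p1
  rw [h4, h6] at p2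
  have h7 := h1.2
  constructor
  · rw [p1.1, p2.1]
    revert h7
    cases c (x + 2 * w) <;> cases c x <;> simp
  · rw [p1.2, p2.2]
    revert h7
    cases c (x + 2 * w) <;> cases c x <;> simp

/-- The pattern seen at `x` and at `2 x`. -/
def pat (c : ℤ → Bool) (x : ℤ) : ℤ × Bool → Bool :=
  fun p => if p.2 then c (2 * x + 2 * p.1) else c (x + 2 * p.1)

/-- The set of limit patterns. -/
def PP (c : ℤ → Bool) : Set (ℤ × Bool → Bool) := {P | MapClusterPt P (G0 c) (pat c)}

theorem PP_mem {c : ℤ → Bool} {P : ℤ × Bool → Bool} (hP : P ∈ PP c) :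
    ∃ U : Ultrafilter ℤ, (U : Filter ℤ) ≤ G0 c ∧ ∃ f g, Lim c U f g ∧
      (∀ t, f (2 * t) = P (t, false)) ∧ ∀ t, g (2 * t) = P (t, true) := by
  unfold PP at hP
  rw [Set.mem_ofPred_eq, mapClusterPt_iff_ultrafilter] at hP
  obtain ⟨U, hU, hT⟩ := hP
  rw [tendsto_pi_nhds] at hT
  obtain ⟨f, g, hL⟩ := exLim c U (G0_top hU)
  refine ⟨U, hU, f, g, hL, ?_, ?_⟩
  · intro t
    have h := hT (t, false)
    rw [nhds_discrete, tendsto_pure] at h
    obtain ⟨x, h1, h2⟩ := (h.and (hL.h1 (2 * t))).exists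
    rw [← h1, ← h2]
    simp [pat]
  · intro t
    have h := hT (t, true)
    rw [nhds_discrete, tendsto_pure] at h
    obtain ⟨x, h1, h2⟩ := (h.and (hL.h2 (2 * t))).exists
    rw [← h1, ← h2]
    simp [pat]

theorem mem_PP {c : ℤ → Bool} {P : ℤ × Bool → Bool} {U : Ultrafilter ℤ}
    (hU : (U : Filter ℤ) ≤ G0 c)
    (h1 : ∀ t, ∀ᶠ x in (U : Filter ℤ), c (x + 2 * t) = P (t, false))
    (h2 : ∀ t, ∀ᶠ x in (U : Filter ℤ), c (2 * x + 2 * t) = P (t, true)) : P ∈ PP c := by
  unfold PP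
  rw [Set.mem_ofPred_eq, mapClusterPt_iff_ultrafilter]
  refine ⟨U, hU, ?_⟩
  rw [tendsto_pi_nhds]
  rintro ⟨t, i⟩
  rw [nhds_discrete, tendsto_pure]
  cases i with
  | false =>
    filter_upwards [h1 t] with x hx
    simpa [pat] using hx
  | true =>
    filter_upwards [h2 t] with x hx
    simpa [pat] using hx

theorem PP_closed (c : ℤ → Bool) : IsClosed (PP c) := by
  unfold PP MapClusterPt
  exact isClosed_setOfPred_clusterPt

theorem PP_nonempty {c : ℤ → Bool} (hc : Bad c) : (PP c).Nonempty := by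
  have hNB : NeBot (G0 c) := G0_neBot hc
  obtain ⟨P, hP⟩ := exists_clusterPt_of_compactSpace (map (pat c) (G0 c))
  exact ⟨P, hP⟩

/-- Shifting a pattern. -/
def sh (w : ℤ) (P : ℤ × Bool → Bool) : ℤ × Bool → Bool :=
  fun p => if p.2 then P (2 * w + p.1, true) else P (w + p.1, false)

theorem PP_shift {c : ℤ → Bool} {P : ℤ × Bool → Bool} (hP : P ∈ PP c)
    (I : Finset (ℤ × Bool)) : ∃ w, sh w P ∈ PP c ∧ ∀ p ∈ I, sh w P p ≠ P p := by
  classical
  obtain ⟨U, hU, f, g, hL, hf, hg⟩ := PP_mem hP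
  obtain ⟨w, hw2⟩ := L3 hL hU (I.image Prod.fst)
  refine ⟨w, ?_, ?_⟩
  · refine mem_PP (U := U.map (fun x => x + 2 * w)) (G0_shift hU w) ?_ ?_
    · intro t
      rw [Ultrafilter.coe_map, Filter.eventually_map]
      filter_upwards [hL.h1 (2 * (w + t))] with x hx
      simp only [sh, Bool.false_eq_true, if_false]
      rw [← hf, ← hx]; congr 1; ring
    · intro t
      rw [Ultrafilter.coe_map, Filter.eventually_map]
      filter_upwards [hL.h2 (2 * (2 * w + t))] with x hx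
      simp only [sh, if_true]
      rw [← hg, ← hx]; congr 1; ring
  · rintro ⟨t, i⟩ hp
    have ht : t ∈ I.image Prod.fst := Finset.mem_image.2 ⟨(t, i), hp, rfl⟩
    obtain ⟨h1, h2⟩ := hw2 t ht
    cases i with
    | false =>
      simp only [sh, Bool.false_eq_true, if_false]
      rw [← hf, ← hf]
      intro he
      apply h1
      rw [← he]; congr 1; ring
    | true =>
      simp only [sh, if_true]
      rw [← hg, ← hg]
      intro he
      apply h2
      rw [← he]; congr 1; ring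

/-- The opposite pattern. -/
def ng (P : ℤ × Bool → Bool) : ℤ × Bool → Bool := fun p => !P p

theorem PP_neg {c : ℤ → Bool} {P : ℤ × Bool → Bool} (hP : P ∈ PP c) :
    ng P ∈ PP c := by
  rw [← (PP_closed c).closure_eq, mem_closure_iff]
  intro O hO hPO
  obtain ⟨I, u, hu1, hu2⟩ := isOpen_pi_iff.1 hO (ng P) hPO
  obtain ⟨w, hw1, hw2⟩ := PP_shift hP I
  refine ⟨sh w P, hu2 ?_, hw1⟩
  intro p hp
  have h1 : sh w P p = ng P p := by
    have := hw2 p hp
    revert this
    unfold ng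
    cases sh w P p <;> cases P p <;> simp
  rw [h1]
  exact (hu1 p hp).2

/-- The closed sets of the Baire category argument. -/
def CF (F : Finset ℤ) : Set (ℤ × Bool → Bool) :=
  {P | ∀ t, (∀ s ∈ F, P (t + s, false) ≠ P (s, false)) → P (2 * t, true) ≠ P (t, true)}

theorem CF_closed (F : Finset ℤ) : IsClosed (CF F) := by
  have h : CF F = ⋂ t : ℤ, ({P : ℤ × Bool → Bool |
      ¬ ∀ s ∈ F, P (t + s, false) ≠ P (s, false)} ∪
      {P : ℤ × Bool → Bool | P (2 * t, true) ≠ P (t, true)}) := by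
    ext P
    simp only [CF, Set.mem_ofPred_eq, Set.mem_iInter, Set.mem_union]
    constructor
    · intro hP t
      by_cases h1 : ∀ s ∈ F, P (t + s, false) ≠ P (s, false)
      · exact Or.inr (hP t h1)
      · exact Or.inl h1
    · intro hP t h1
      rcases hP t with h2 | h2
      · exact absurd h1 h2
      · exact h2
  rw [h]
  have hne : ∀ p q : ℤ × Bool, IsClopen {P : ℤ × Bool → Bool | P p ≠ P q} := by
    intro p q
    have hcont : Continuous (fun P : ℤ × Bool → Bool => (P p, P q)) :=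
      (continuous_apply p).prodMk (continuous_apply q)
    exact (isClopen_discrete {r : Bool × Bool | r.1 ≠ r.2}).preimage hcont
  refine isClosed_iInter (fun t => IsClosed.union ?_ (hne _ _).1)
  have h2 : {P : ℤ × Bool → Bool | ¬ ∀ s ∈ F, P (t + s, false) ≠ P (s, false)}
      = (⋂ s ∈ F, {P : ℤ × Bool → Bool | P (t + s, false) ≠ P (s, false)})ᶜ := by
    ext P
    simp
  rw [h2, isClosed_compl_iff]
  exact isOpen_biInter_finset (fun s _ => (hne _ _).2)

theorem CF_neg {F : Finset ℤ} {P : ℤ × Bool → Bool} (h : ng P ∈ CF F) : P ∈ CF F := by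
  intro t ht
  have h1 := h t (by
    intro s hs
    have := ht s hs
    revert this
    unfold ng
    cases P (t + s, false) <;> cases P (s, false) <;> simp)
  revert h1
  unfold ng
  cases P (2 * t, true) <;> cases P (t, true) <;> simp

theorem no_bad (c : ℤ → Bool) : ¬ Bad c := by
  classical
  intro hc
  have hcomp : CompactSpace (PP c) := isCompact_iff_compactSpace.1 (PP_closed c).isCompact
  have hne : Nonempty (PP c) := (PP_nonempty hc).to_subtype
  have hcover : (⋃ F : Finset ℤ, ((Subtype.val : PP c → (ℤ × Bool → Bool)) ⁻¹' CF F)) = univ := by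
    rw [Set.eq_univ_iff_forall]
    rintro ⟨P, hP⟩
    obtain ⟨U, hU, f, g, hL, hf, hg⟩ := PP_mem hP
    obtain ⟨F, hF⟩ := L2 hc hL (G0_even hU)
    refine Set.mem_iUnion.2 ⟨F, fun t ht => ?_⟩
    change P (2 * t, true) ≠ P (t, true)
    rw [← hg, ← hg]
    apply hF
    intro s hs
    have h1 : P (t + s, false) ≠ P (s, false) := ht s hs
    rw [← hf, ← hf] at h1
    intro he
    apply h1
    rw [← he]; congr 1; ring
  obtain ⟨F, ⟨P, hP⟩, hPint⟩ := nonempty_interior_of_iUnion_of_closed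
    (fun F => (CF_closed F).preimage continuous_subtype_val) hcover
  obtain ⟨O', hO'sub, hO'open, hPO'⟩ := mem_interior.1 hPint
  obtain ⟨O, hO, hOO'⟩ := isOpen_induced_iff.1 hO'open
  have hPO : P ∈ O := by
    have : (⟨P, hP⟩ : PP c) ∈ Subtype.val ⁻¹' O := by rw [hOO']; exact hPO'
    exact this
  have hOF : ∀ Q ∈ PP c, Q ∈ O → Q ∈ CF F := by
    intro Q hQ hQO
    have h1 : (⟨Q, hQ⟩ : PP c) ∈ O' := by rw [← hOO']; exact hQO
    exact hO'sub h1
  obtain ⟨I, u, hu1, hu2⟩ := isOpen_pi_iff.1 hO P hPO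
  obtain ⟨w, hw1, hw2⟩ := PP_shift hP
    (I ∪ F.image (fun s => (s, false)) ∪ {((0 : ℤ), true)})
  have hPF : P ∈ CF F := hOF P hP hPO
  have hQneg : ng (sh w P) ∈ O := by
    apply hu2
    intro p hp
    have h1 : ng (sh w P) p = P p := by
      have := hw2 p (Finset.mem_union_left _ (Finset.mem_union_left _ hp))
      revert this
      unfold ng
      cases sh w P p <;> cases P p <;> simp
    rw [h1]
    exact (hu1 p hp).2
  have hQF : sh w P ∈ CF F := CF_neg (hOF _ (PP_neg hw1) hQneg)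
  have hFne : ∀ s ∈ F, P (w + s, false) ≠ P (s, false) := by
    intro s hs
    have := hw2 (s, false) (Finset.mem_union_left _ (Finset.mem_union_right _
      (Finset.mem_image.2 ⟨s, hs, rfl⟩)))
    simpa [sh] using this
  have c1 := hPF w hFne
  have c2 := hQF (-w) (by
    intro s hs
    have e : w + (-w + s) = s := by ring
    simp only [sh, Bool.false_eq_true, if_false]
    rw [e]
    exact fun h => hFne s hs h.symm)
  have c3 := hw2 (0, true) (Finset.mem_union_right _ (Finset.mem_singleton_self _))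
  have e1 : 2 * w + 2 * (-w) = 0 := by ring
  have e2 : 2 * w + -w = w := by ring
  simp only [sh, if_true] at c2 c3
  rw [e1, e2] at c2
  rw [add_zero] at c3
  revert c1 c2 c3
  cases P (2 * w, true) <;> cases P (w, true) <;> cases P (0, true) <;> simp

theorem main : ¬ (∃ c : ℕ → Bool, ∀ X : Set ℕ, X.Infinite →
      ∃ x ∈ X, ∃ y ∈ X, ∃ z ∈ X, ∃ w ∈ X, c (x + y) ≠ c (z + w)) := by
  rintro ⟨c, hc⟩
  refine no_bad (fun x => c x.toNat) ?_
  rintro X hX h0 ⟨i, hi⟩
  have hinj : Set.InjOn Int.toNat X := by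
    intro a ha b hb hab
    have h1 := Int.toNat_of_nonneg (h0 a ha)
    have h2 := Int.toNat_of_nonneg (h0 b hb)
    rw [← h1, ← h2, hab]
  obtain ⟨x, ⟨x', hx', rfl⟩, y, ⟨y', hy', rfl⟩, z, ⟨z', hz', rfl⟩, w, ⟨w', hw', rfl⟩, hne⟩ :=
    hc (Int.toNat '' X) (hX.image hinj)
  apply hne
  have h1 := hi x' hx' y' hy'
  have h2 := hi z' hz' w' hw'
  have e1 : (x' + y').toNat = x'.toNat + y'.toNat := Int.toNat_add (h0 _ hx') (h0 _ hy')
  have e2 : (z' + w').toNat = z'.toNat + w'.toNat := Int.toNat_add (h0 _ hz') (h0 _ hw')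
  change c (x' + y').toNat = i at h1
  change c (z' + w').toNat = i at h2
  rw [← e1, ← e2, h1, h2]

end Pool.Agent.Q213.ON
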