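import Pool.Agent.Q213.ON.Chain

/-!
# Scales

For a pattern set `V` we look at the scales `μ` such that near `2 ^ j μ` the
colouring on `V` only depends on the parity of `j`.
-/

set_option autoImplicit false

namespace Pool.Agent.Q213.ON

open Filter Set Topology

/-- The scales at which the signed colouring is constantly `s` on `V`. -/
def Om (c : ℤ → Bool) (V : Set ℤ) (s : Bool) : Set ℝ :=
  {μ | 0 < μ ∧ ∃ ε > 0, ∃ J : ℕ, ∀ j ≥ J, ∀ v ∈ V,
    |(v : ℝ) - 2 ^ j * μ| ≤ 2 ^ j * ε → c v = xor s (Nat.bodd j)}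

theorem Om_open {c : ℤ → Bool} {V : Set ℤ} {s : Bool} {μ : ℝ} (h : μ ∈ Om c V s) :
    ∃ δ > 0, ∀ ν, |ν - μ| < δ → ν ∈ Om c V s := by
  obtain ⟨hμ, ε, hε, J, hJ⟩ := h
  refine ⟨min (ε / 2) μ, lt_min (by linarith) hμ, ?_⟩
  intro ν hν
  have h1 : |ν - μ| < ε / 2 := hν.trans_le (min_le_left _ _)
  have h2 : |ν - μ| < μ := hν.trans_le (min_le_right _ _)
  refine ⟨?_, ε / 2, by linarith, J, ?_⟩
  · have := (abs_lt.1 h2).1
    linarith
  · intro j hj v hv hd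
    apply hJ j hj v hv
    have hp : (0 : ℝ) < 2 ^ j := by positivity
    have e : (v : ℝ) - 2 ^ j * μ = ((v : ℝ) - 2 ^ j * ν) + 2 ^ j * (ν - μ) := by ring
    rw [e]
    have h3 : |(2 : ℝ) ^ j * (ν - μ)| ≤ 2 ^ j * (ε / 2) := by
      rw [abs_mul, abs_of_pos hp]
      exact mul_le_mul_of_nonneg_left h1.le hp.le
    calc |((v : ℝ) - 2 ^ j * ν) + 2 ^ j * (ν - μ)|
        ≤ |(v : ℝ) - 2 ^ j * ν| + |(2 : ℝ) ^ j * (ν - μ)| := abs_add_le _ _
      _ ≤ 2 ^ j * (ε / 2) + 2 ^ j * (ε / 2) := add_le_add hd h3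
      _ = 2 ^ j * ε := by ring

theorem Om_quarter {c : ℤ → Bool} {V : Set ℤ} {s : Bool} {μ : ℝ} (h : μ ∈ Om c V s) :
    μ / 4 ∈ Om c V s := by
  obtain ⟨hμ, ε, hε, J, hJ⟩ := h
  refine ⟨by linarith, ε / 4, by linarith, J + 2, ?_⟩
  intro j hj v hv hd
  obtain ⟨i, rfl⟩ := Nat.exists_eq_add_of_le hj
  have e1 : (2 : ℝ) ^ (J + 2 + i) * (μ / 4) = 2 ^ (J + i) * μ := by
    rw [show J + 2 + i = (J + i) + 2 by ring, pow_add]; ring
  have e2 : (2 : ℝ) ^ (J + 2 + i) * (ε / 4) = 2 ^ (J + i) * ε := by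
    rw [show J + 2 + i = (J + i) + 2 by ring, pow_add]; ring
  rw [e1, e2] at hd
  have h1 := hJ (J + i) (Nat.le_add_right _ _) v hv hd
  rw [h1]
  have e3 : Nat.bodd (J + 2 + i) = Nat.bodd (J + i) := by
    simp [Nat.bodd_add]
  rw [e3]

theorem Om_quarter_pow {c : ℤ → Bool} {V : Set ℤ} {s : Bool} {μ : ℝ} (h : μ ∈ Om c V s)
    (i : ℕ) : μ / 4 ^ i ∈ Om c V s := by
  induction i with
  | zero => simpa using h
  | succ i ih =>
    have := Om_quarter ih
    rw [div_div, ← pow_succ] at this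
    exact this

theorem Om_of_window {c : ℤ → Bool} {V : Set ℤ} (hev : ∀ v ∈ V, Even v) {m : ℕ}
    (hP : PC c V m) {s : Bool} {x r : ℤ} (hx : 0 < x) (hr : 2 * m < r) (j0 : ℕ)
    (hw : ∀ v ∈ V, |v - x| ≤ r → c v = xor s (Nat.bodd j0)) :
    (x : ℝ) / 2 ^ j0 ∈ Om c V s := by
  have hp0 : (0 : ℝ) < 2 ^ j0 := by positivity
  have hxr : (0 : ℝ) < x := by exact_mod_cast hx
  have hrr : ((2 * m : ℤ) : ℝ) < (r : ℝ) := by exact_mod_cast hr
  push_cast at hrr
  refine ⟨by positivity, ((r : ℝ) - 2 * m) / 2 ^ j0, div_pos (by linarith) hp0, j0, ?_⟩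
  intro j hj v hv hd
  obtain ⟨i, rfl⟩ := Nat.exists_eq_add_of_le hj
  have e1 : (2 : ℝ) ^ (j0 + i) * ((x : ℝ) / 2 ^ j0) = 2 ^ i * x := by
    rw [pow_add]; field_simp
  have e2 : (2 : ℝ) ^ (j0 + i) * (((r : ℝ) - 2 * m) / 2 ^ j0) = 2 ^ i * (r - 2 * m) := by
    rw [pow_add]; field_simp
  rw [e1, e2] at hd
  have h1 : |v - 2 ^ i * x| ≤ 2 ^ i * (r - 2 * m) := by
    have : ((|v - 2 ^ i * x| : ℤ) : ℝ) ≤ ((2 ^ i * (r - 2 * m) : ℤ) : ℝ) := by
      push_cast; exact hd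
    exact_mod_cast this
  have h2 := expand hev hP hw i v hv (h1.trans (by
    have : (0 : ℤ) ≤ 2 * m := by positivity
    linarith))
  rw [h2, Nat.bodd_add, Bool.xor_assoc]

/-- Right accumulation. -/
theorem right_acc {c : ℤ → Bool} (hc : Bad c) {F : Finset ℤ} {f g : ℤ → Bool} {m : ℕ}
    (hP : PC c (VV c F f g) m) {s : Bool} {r : ℤ} (hr : 2 * m < r) {μ : ℝ} (hμ : 0 < μ)
    (H : ∀ N : ℕ, ∃ k ≥ N, ∃ x : ℤ, Even x ∧ |(x : ℝ) / 2 ^ k - μ| ≤ 1 / (N + 1) ∧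
      ∀ v ∈ VV c F f g, |v - x| ≤ r → c v = xor s (Nat.bodd k))
    (δ : ℝ) (hδ : 0 < δ) : ∃ ν ∈ Om c (VV c F f g) s, μ < ν ∧ ν < μ + δ := by
  classical
  choose k hk x hxe hxd hxw using H
  set 𝒩 : Ultrafilter ℕ := hyperfilter ℕ with h𝒩
  have hN : (𝒩 : Filter ℕ) ≤ atTop := by
    rw [h𝒩, ← Nat.cofinite_eq_atTop]; exact hyperfilter_le_cofinite
  -- `x` tends to infinity
  have hpow : Tendsto (fun n : ℕ => (2 : ℝ) ^ n * (μ / 2)) atTop atTop :=
    (tendsto_pow_atTop_atTop_of_one_lt (by norm_num)).atTop_mul_const (by linarith)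
  have hxtop : Tendsto x atTop atTop := by
    refine tendsto_atTop.2 (fun b => ?_)
    obtain ⟨N0, hN0⟩ := exists_nat_gt (2 / μ)
    filter_upwards [hpow.eventually_ge_atTop (b : ℝ), eventually_ge_atTop N0] with N h1 h2
    have h3 : (1 : ℝ) / (N + 1) ≤ μ / 2 := by
      rw [div_le_div_iff₀ (by positivity) (by norm_num)]
      have h4 : (N0 : ℝ) ≤ N := by exact_mod_cast h2
      rw [div_lt_iff₀ hμ] at hN0
      nlinarith
    have h5 := (abs_le.1 (hxd N)).1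
    have hp : (0 : ℝ) < 2 ^ k N := by positivity
    have h6 : μ / 2 ≤ (x N : ℝ) / 2 ^ k N := by linarith
    rw [le_div_iff₀ hp] at h6
    have h7 : (2 : ℝ) ^ N ≤ 2 ^ k N := pow_le_pow_right₀ (by norm_num) (hk N)
    have h8 : (b : ℝ) ≤ (x N : ℝ) := by
      calc (b : ℝ) ≤ 2 ^ N * (μ / 2) := h1
        _ ≤ 2 ^ k N * (μ / 2) := mul_le_mul_of_nonneg_right h7 (by linarith)
        _ = μ / 2 * 2 ^ k N := by ring
        _ ≤ x N := h6
    exact_mod_cast h8
  have hx𝒩 : ∀ b, ∀ᶠ N in (𝒩 : Filter ℕ), b ≤ x N := fun b =>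
    hN (hxtop.eventually_ge_atTop b)
  -- the finite window
  obtain ⟨M, hM⟩ : ∃ M : ℤ, ∀ t ∈ F, |t| ≤ M := by
    obtain ⟨M, hM⟩ := (F.image (fun t => |t|)).bddAbove
    refine ⟨M, fun t ht => hM ?_⟩
    exact Finset.mem_coe.2 (Finset.mem_image_of_mem _ ht)
  set L : ℤ := 2 * |r| + |M| with hL
  set F' : Finset ℤ := Finset.Icc (-L) L with hF'
  choose f' hf' using fun t => exlim 𝒩 (fun N => xor (c (x N)) (c (x N + 2 * t)))
  choose g' hg' using fun t => exlim 𝒩 (fun N => xor (c (x N)) (c (2 * x N + 2 * t)))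
  obtain ⟨κ, hκ⟩ := exlim 𝒩 (fun N => xor (c (x N)) (xor s (Nat.bodd (k N))))
  set V' : Set ℤ := VV c F' f' g' with hV'
  have hxV' : ∀ᶠ N in (𝒩 : Filter ℕ), x N ∈ V' := by
    have hfin : ∀ᶠ N in (𝒩 : Filter ℕ), ∀ t ∈ F',
        xor (c (x N)) (c (x N + 2 * t)) = f' t ∧
          xor (c (x N)) (c (2 * x N + 2 * t)) = g' t := by
      rw [Filter.eventually_all_finset]
      intro t _
      exact (hf' t).and (hg' t)
    filter_upwards [hfin, hx𝒩 0] with N h1 h2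
    refine ⟨hxe N, h2, ?_⟩
    intro t ht
    obtain ⟨h3, h4⟩ := h1 t ht
    rw [← h3, ← h4]
    constructor
    · cases c (x N) <;> cases c (x N + 2 * t) <;> rfl
    · cases c (x N) <;> cases c (2 * x N + 2 * t) <;> rfl
  have hV'inf : ∃ᶠ v in (atTop : Filter ℤ), v ∈ V' := by
    have h1 : ∃ᶠ N in (atTop : Filter ℕ), x N ∈ V' := hxV'.frequently.filter_mono hN
    exact hxtop.frequently h1
  have hV'good : Good V' := VV_good hc F' f' g' hV'inf
  -- the windows around the elements of `V'`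
  have hwin : ∀ y ∈ V', ∀ v ∈ VV c F f g, |v - y| ≤ r → c v = xor (c y) κ := by
    intro y hy v hv hvy
    obtain ⟨t, ht⟩ : ∃ t, v = y + 2 * t := by
      have h1 : Even (v - y) := hv.1.sub hy.1
      exact ⟨(v - y) / 2, by rw [two_mul_half h1]; ring⟩
    subst ht
    have htr : |t| ≤ |r| := by
      have h1 : |y + 2 * t - y| = 2 * |t| := by
        rw [add_sub_cancel_left, abs_mul]; rfl
      rw [h1] at hvy
      have h2 := abs_nonneg t
      have h3 := le_abs_self r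
      linarith
    have hmemF : ∀ z : ℤ, |z| ≤ L → z ∈ F' := by
      intro z hz
      rw [hF', Finset.mem_Icc]
      exact abs_le.1 hz
    have hMM : ∀ z ∈ F, |z| ≤ |M| := fun z hz => (hM z hz).trans (le_abs_self M)
    have htF : t ∈ F' := hmemF _ (by
      have := abs_nonneg r
      have := abs_nonneg M
      rw [hL]; linarith)
    obtain ⟨N, ⟨⟨h1, h2⟩, h3⟩⟩ := ((hxV'.and hκ).and (hx𝒩 (-(2 * t)))).exists
    have hxt : x N + 2 * t ∈ VV c F f g := by
      refine transfer hy h1 htF ?_ ?_ hv (by omega)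
      · intro z hz
        apply hmemF
        have h4 := hMM z hz
        have := abs_nonneg r
        calc |t + z| ≤ |t| + |z| := abs_add_le _ _
          _ ≤ L := by rw [hL]; linarith
      · intro z hz
        apply hmemF
        have h4 := hMM z hz
        calc |2 * t + z| ≤ |2 * t| + |z| := abs_add_le _ _
          _ = 2 * |t| + |z| := by rw [abs_mul]; rfl
          _ ≤ L := by rw [hL]; linarith
    have h5 := hxw N _ hxt (by
      have e : x N + 2 * t - x N = y + 2 * t - y := by ring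
      rw [e]; exact hvy)
    have h6 := (h1.2.2 t htF).1
    have h7 := (hy.2.2 t htF).1
    rw [h7]
    rw [h6] at h5
    revert h5 h2
    cases c (x N) <;> cases f' t <;> cases xor s (Nat.bodd (k N)) <;> cases κ <;>
      cases c y <;> simp
  obtain ⟨m', hP'⟩ := propP hc hV'good
  -- elements of `V'` close to `2 ^ J μ`
  have hy : ∀ J : ℕ, ∃ y ∈ V', |(y : ℝ) - 2 ^ J * μ| ≤ 2 * m' + 1 ∧
      c y = xor κ (xor s (Nat.bodd J)) := by
    intro J
    obtain ⟨N, ⟨⟨h1, h2⟩, h3⟩⟩ :=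
      ((hxV'.and hκ).and (hN (eventually_ge_atTop (2 ^ J)))).exists
    have hJN : J ≤ k N := (Nat.lt_two_pow_self.le.trans h3).trans (hk N)
    obtain ⟨i, hi⟩ := Nat.exists_eq_add_of_le hJN
    obtain ⟨y, hyV, hyd, hyc⟩ := chain hV'good.ev hP' h1 i
    refine ⟨y, hyV, ?_, ?_⟩
    · have hpi : (0 : ℝ) < 2 ^ i := by positivity
      have hpJ : (0 : ℝ) < 2 ^ J := by positivity
      have h4 : |(2 : ℝ) ^ i * y - x N| ≤ 2 * m' * 2 ^ i := by
        have h5 : ((|2 ^ i * y - x N| : ℤ) : ℝ) ≤ ((2 * m' * (2 ^ i - 1) : ℤ) : ℝ) := by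
          exact_mod_cast hyd
        push_cast at h5
        have h6 : (0 : ℝ) ≤ 2 * m' := by positivity
        calc |(2 : ℝ) ^ i * y - x N| ≤ 2 * m' * (2 ^ i - 1) := h5
          _ ≤ 2 * m' * 2 ^ i := mul_le_mul_of_nonneg_left (by linarith) h6
      have h7 : |(x N : ℝ) - 2 ^ i * (2 ^ J * μ)| ≤ 2 ^ i * 1 := by
        have h8 := hxd N
        rw [hi, pow_add] at h8
        have e : (x N : ℝ) - 2 ^ i * (2 ^ J * μ)
            = (2 ^ i * 2 ^ J) * ((x N : ℝ) / (2 ^ J * 2 ^ i) - μ) := by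
          field_simp
        rw [e, abs_mul, abs_of_pos (by positivity : (0 : ℝ) < 2 ^ i * 2 ^ J), mul_assoc]
        refine mul_le_mul_of_nonneg_left ?_ hpi.le
        calc 2 ^ J * |(x N : ℝ) / (2 ^ J * 2 ^ i) - μ|
            ≤ 2 ^ J * (1 / (N + 1)) := mul_le_mul_of_nonneg_left h8 hpJ.le
          _ ≤ 1 := by
            rw [mul_one_div, div_le_one (by positivity)]
            have : ((2 ^ J : ℕ) : ℝ) ≤ N := by exact_mod_cast h3
            push_cast at this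
            linarith
      have h9 : 2 ^ i * |(y : ℝ) - 2 ^ J * μ| ≤ 2 ^ i * (2 * m' + 1) := by
        have e : 2 ^ i * |(y : ℝ) - 2 ^ J * μ|
            = |((2 : ℝ) ^ i * y - x N) + ((x N : ℝ) - 2 ^ i * (2 ^ J * μ))| := by
          rw [← abs_of_pos hpi, ← abs_mul, abs_of_pos hpi]
          congr 1; ring
        rw [e]
        calc |((2 : ℝ) ^ i * y - x N) + ((x N : ℝ) - 2 ^ i * (2 ^ J * μ))|
            ≤ |(2 : ℝ) ^ i * y - x N| + |(x N : ℝ) - 2 ^ i * (2 ^ J * μ)| := abs_add_le _ _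
          _ ≤ 2 * m' * 2 ^ i + 2 ^ i * 1 := add_le_add h4 h7
          _ = 2 ^ i * (2 * m' + 1) := by ring
      exact le_of_mul_le_mul_left h9 hpi
    · rw [hyc]
      rw [hi, Nat.bodd_add] at h2
      revert h2
      cases c (x N) <;> cases s <;> cases Nat.bodd J <;> cases Nat.bodd i <;> cases κ <;> simp
  choose Y hYV hYd hYc using fun n : ℕ => hy (2 * n)
  have hYhalf : ∀ n, 2 * (Y n / 2) = Y n := fun n => two_mul_half (hYV n).1
  have h4pow : Tendsto (fun n : ℕ => (2 : ℝ) ^ (2 * n) * μ) atTop atTop := by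
    have h1 : Tendsto (fun n : ℕ => (4 : ℝ) ^ n * μ) atTop atTop :=
      (tendsto_pow_atTop_atTop_of_one_lt (by norm_num)).atTop_mul_const hμ
    refine h1.congr (fun n => ?_)
    rw [pow_mul]; norm_num
  have hztop : Tendsto (fun n => Y n / 2) atTop atTop := by
    refine tendsto_atTop.2 (fun b => ?_)
    filter_upwards [h4pow.eventually_ge_atTop (2 * (b : ℝ) + (2 * m' + 1))] with n hn
    have h1 := (abs_le.1 (hYd n)).1
    have h2 : 2 * (b : ℝ) ≤ (Y n : ℝ) := by linarith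
    have h3 : 2 * b ≤ Y n := by exact_mod_cast h2
    omega
  set W : Ultrafilter ℤ := 𝒩.map (fun n => Y n / 2) with hW
  have hWtop : (W : Filter ℤ) ≤ atTop := by
    rw [hW, Ultrafilter.coe_map]
    exact (Filter.map_mono hN).trans hztop
  obtain ⟨φ, ψ, hLim⟩ := exLim c W hWtop
  have hψ : ψ 0 = xor κ s := by
    have h1 := hLim.h2 0
    rw [hW, Ultrafilter.coe_map, Filter.eventually_map] at h1
    obtain ⟨n, hn⟩ := h1.exists
    rw [← hn, add_zero, hYhalf, hYc]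
    simp [Nat.bodd_mul]
  have hmid := hV'good.mid W hWtop (by
    rw [hW, Ultrafilter.coe_map, Filter.eventually_map]
    exact Eventually.of_forall (fun n => by rw [hYhalf]; exact hYV n))
  obtain ⟨z, ⟨⟨hz1, hz2⟩, hz3⟩⟩ :=
    ((hmid.and (L1 hc hLim 0)).and (ge_ev hWtop (2 * m' + 5))).exists
  rw [mul_zero, zero_add, hψ] at hz2
  have hz4 := hLim.h1 z
  rw [hW, Ultrafilter.coe_map, Filter.eventually_map] at hz1 hz4
  have h4δ : Tendsto (fun n : ℕ => (2 : ℝ) ^ (2 * n) * δ) atTop atTop := by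
    have h1 : Tendsto (fun n : ℕ => (4 : ℝ) ^ n * δ) atTop atTop :=
      (tendsto_pow_atTop_atTop_of_one_lt (by norm_num)).atTop_mul_const hδ
    refine h1.congr (fun n => ?_)
    rw [pow_mul]; norm_num
  obtain ⟨n, ⟨⟨⟨hn1, hn2⟩, hn3⟩, hn4⟩, hn5⟩ :=
    ((((hz1.and hz4).and (hN (eventually_ge_atTop 1))).and
      (hN (h4δ.eventually_gt_atTop (2 * ((z : ℝ) + (2 * m' + 1)))))).and
      (hN (hztop.eventually_ge_atTop 0))).exists
  set y' : ℤ := z + Y n / 2 with hy'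
  have hy'pos : 0 < y' := by
    have : (0 : ℤ) ≤ m' := by positivity
    omega
  have hcy' : c y' = !(xor κ s) := by
    have h1 : c (Y n / 2 + z) = φ z := hn2
    rw [hy', add_comm, h1]
    revert hz2
    cases φ z <;> cases xor κ s <;> simp
  obtain ⟨j, hj⟩ : ∃ j, 2 * n = j + 1 := ⟨2 * n - 1, by
    change 1 ≤ n at hn3
    omega⟩
  have hbj : Nat.bodd j = true := by
    have h1 : Nat.bodd (j + 1) = false := by rw [← hj]; simp [Nat.bodd_mul]
    rw [Nat.bodd_succ] at h1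
    revert h1
    cases Nat.bodd j <;> simp
  have hwin' : ∀ v ∈ VV c F f g, |v - y'| ≤ r → c v = xor s (Nat.bodd j) := by
    intro v hv hvy
    rw [hwin y' hn1 v hv hvy, hcy', hbj]
    cases κ <;> cases s <;> rfl
  refine ⟨(y' : ℝ) / 2 ^ j, Om_of_window (fun v hv => hv.1) hP hy'pos hr j hwin', ?_, ?_⟩
  · have hp : (0 : ℝ) < 2 ^ j := by positivity
    rw [lt_div_iff₀ hp]
    have h1 := (abs_le.1 (hYd n)).1
    rw [hj, pow_succ] at h1
    have h2 : (2 : ℝ) * ((Y n / 2 : ℤ) : ℝ) = (Y n : ℝ) := by exact_mod_cast hYhalf n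
    have h3 : ((2 * m' + 5 : ℤ) : ℝ) ≤ (z : ℝ) := by exact_mod_cast hz3
    push_cast at h3
    have h4 : (y' : ℝ) = z + ((Y n / 2 : ℤ) : ℝ) := by rw [hy']; push_cast; rfl
    rw [h4]
    have h5 : (0 : ℝ) ≤ m' := by positivity
    nlinarith
  · have hp : (0 : ℝ) < 2 ^ j := by positivity
    rw [div_lt_iff₀ hp]
    have h1 := (abs_le.1 (hYd n)).2
    rw [hj, pow_succ] at h1
    have h2 : (2 : ℝ) * ((Y n / 2 : ℤ) : ℝ) = (Y n : ℝ) := by exact_mod_cast hYhalf n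
    have h4 : (y' : ℝ) = z + ((Y n / 2 : ℤ) : ℝ) := by rw [hy']; push_cast; rfl
    rw [h4]
    have h6 : 2 * ((z : ℝ) + (2 * m' + 1)) < 2 ^ (2 * n) * δ := hn4
    rw [hj, pow_succ] at h6
    have h5 : (0 : ℝ) ≤ m' := by positivity
    nlinarith

end Pool.Agent.Q213.ON
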